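import Pool.Agent.P.MP_00bf54_lc.Enum

set_option autoImplicit false

namespace Pool.Agent.Results.MP_00bf54_lc.FinGen

open Pool.Agent.P.MP_00bf54_lc Pool.Agent.Lib.Comp Ordinal

/-- The order of Cantor normal form codes is a computable well-order of type `ω^ω`, and
isomorphism of c.e. presented finitely generated commutative semigroups reduces to its `E_min`. -/
theorem result :
    Function.Injective rank ∧ Set.range rank = Set.Iio (ω ^ ω) ∧
    ComputablePred (fun p : ℕ × ℕ => rank p.1 < rank p.2) ∧
    CRed (fun e i => Nonempty (Pres (e.unpair.1 + 1) e.unpair.2 ≃+ Pres (i.unpair.1 + 1) i.unpair.2))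
      (Emin fun m n => rank m < rank n) :=
  ⟨rank_injective, range_rank, rank_computable,
    reduction (fun e => (e.unpair.1 + 1, e.unpair.2)) (by fun_prop)⟩

end Pool.Agent.Results.MP_00bf54_lc.FinGen
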