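import Pool.Agent.P.MP_00bf54_lc.Enum

set_option autoImplicit false

namespace Pool.Agent.Results.MP_00bf54_lc.NGen

open Pool.Agent.P.MP_00bf54_lc Pool.Agent.Lib.Comp Ordinal

/-- The order of Cantor normal form codes is a computable well-order of type `ω^ω`, and for each
`n` isomorphism of c.e. presented `n`-generated commutative semigroups reduces to its `E_min`. -/
theorem result :
    Function.Injective rank ∧ Set.range rank = Set.Iio (ω ^ ω) ∧
    ComputablePred (fun p : ℕ × ℕ => rank p.1 < rank p.2) ∧
    ∀ n : ℕ, CRed (fun e i => Nonempty (Pres n e ≃+ Pres n i)) (Emin fun a b => rank a < rank b) :=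
  ⟨rank_injective, range_rank, rank_computable,
    fun n => reduction (fun e => (n, e)) (by fun_prop)⟩

end Pool.Agent.Results.MP_00bf54_lc.NGen
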